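import Pool.Agent.Lib.MP_144d21_co.PSI.Iface

/-!
# MP_144d21_co, project XU3, part PSI: FRAME (helper84)
-/

set_option autoImplicit false

namespace Pool.Agent.Xu.H84

open Finset

variable {F K V P : Type} [Field F] [Fintype K] [DecidableEq K] [Fintype V] [DecidableEq V]

/-- triangular system of functionals outside `Z` -/
structure Data (w : K → V → F) (pr : K → P) (Z : Finset K) (m : ℕ) (s : ℕ → V → F)
    (i : K → ℕ) : Prop where
  lt : ∀ D, D ∉ Z → i D < m
  hit : ∀ k < m, ∃ D, D ∉ Z ∧ i D = k
  tri : ∀ D, D ∉ Z → (∀ k < i D, ∑ v, s k v * w D v = 0) ∧ ∑ v, s (i D) v * w D v ≠ 0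
  inj : ∀ D D', D ∉ Z → D' ∉ Z → pr D = pr D' → i D = i D' → D = D'

/-- the product of the `1 + β_k` -/
noncomputable def prodD (Z : Finset K) (m : ℕ) (i : K → ℕ) : ℝ :=
  ∏ k ∈ range m, (1 + ((univ.filter fun D => D ∉ Z ∧ i D = k).card : ℝ))

omit [DecidableEq V] in
theorem step {w : K → V → F} {pr : K → P} {Z Z' : Finset K} {m : ℕ} {s : ℕ → V → F}
    {i : K → ℕ} (s0 : V → F) (hZ : Z ⊆ Z') (hne : (Z' \ Z).Nonempty)
    (h1 : ∀ D ∈ Z', D ∉ Z → ∑ v, s0 v * w D v ≠ 0) (h2 : ∀ D, D ∉ Z' → ∑ v, s0 v * w D v = 0)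
    (h3 : ∀ D D', D ∈ Z' → D ∉ Z → D' ∈ Z' → D' ∉ Z → pr D = pr D' → D = D')
    (hd : Data w pr Z' m s i) : ∃ (s' : ℕ → V → F) (i' : K → ℕ), Data w pr Z (m + 1) s' i' ∧
      prodD Z (m + 1) i' = (1 + ((Z' \ Z).card : ℝ)) * prodD Z' m i := by
  refine ⟨fun k => Nat.casesOn k s0 s, fun D => if D ∈ Z' then 0 else i D + 1, ⟨?_, ?_, ?_, ?_⟩, ?_⟩
  · intro D _
    by_cases h : D ∈ Z'
    · simp [h]
    · simp only [h, if_false]
      have := hd.lt D h
      omega
  · intro k hk
    rcases k with _ | k
    · obtain ⟨D, hD⟩ := hne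
      rw [mem_sdiff] at hD
      exact ⟨D, hD.2, by simp [hD.1]⟩
    · obtain ⟨D, hD, hi⟩ := hd.hit k (by omega)
      exact ⟨D, fun h => hD (hZ h), by simp [hD, hi]⟩
  · intro D hD
    by_cases h : D ∈ Z'
    · simp only [h, if_true]
      exact ⟨fun k hk => absurd hk (Nat.not_lt_zero k), h1 D h hD⟩
    · simp only [h, if_false]
      refine ⟨fun k hk => ?_, (hd.tri D h).2⟩
      rcases k with _ | k
      · exact h2 D h
      · exact (hd.tri D h).1 k (by omega)
  · intro D D' hD hD' hp hi
    by_cases h : D ∈ Z' <;> by_cases h' : D' ∈ Z'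
    · exact h3 D D' h hD h' hD' hp
    · simp [h, h'] at hi
    · simp [h, h'] at hi
    · simp only [h, h', if_false] at hi
      exact hd.inj D D' h h' hp (by omega)
  · unfold prodD
    rw [prod_range_succ', mul_comm]
    congr 1
    · congr 2
      congr 1
      ext D
      simp only [mem_filter, mem_univ, true_and, mem_sdiff]
      by_cases h : D ∈ Z' <;> simp [h]
    · refine prod_congr rfl fun k _ => ?_
      congr 2
      congr 1
      ext D
      simp only [mem_filter, mem_univ, true_and]
      by_cases h : D ∈ Z'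
      · simp [h]
      · have : D ∉ Z := fun h' => h (hZ h')
        simp [h, this]

omit [DecidableEq V] in
theorem base (hdual : DualfS) {w : K → V → F} (pr : K → P) {Z : Finset K} (h0 : Rel w Z = ⊥) :
    ∃ (m : ℕ) (s : ℕ → V → F) (i : K → ℕ), Data w pr Z m s i ∧
      prodD Z m i = 2 ^ (univ \ Z).card := by
  classical
  have e := (univ \ Z).equivFin
  set r := (univ \ Z).card with hr
  have hs : ∀ D0 : K, ∃ s : V → F, ∀ D, D ∉ Z → ∑ v, s v * w D v = if D = D0 then 1 else 0 := by
    intro D0
    refine hdual F K V w Z (fun D => if D = D0 then 1 else 0) fun x hx => ?_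
    rw [h0, Submodule.mem_bot] at hx
    simp [hx]
  choose s hs using hs
  have mem : ∀ D, D ∉ Z → D ∈ univ \ Z := fun D hD => mem_sdiff.mpr ⟨mem_univ D, hD⟩
  refine ⟨r, fun k => if h : k < r then s (e.symm ⟨k, h⟩).1 else 0,
    fun D => if h : D ∉ Z then (e ⟨D, mem D h⟩ : ℕ) else 0, ⟨?_, ?_, ?_, ?_⟩, ?_⟩
  · intro D hD
    simp only [hD, not_false_eq_true, dif_pos]
    exact (e ⟨D, mem D hD⟩).2
  · intro k hk
    have h1 := (e.symm ⟨k, hk⟩).2
    rw [mem_sdiff] at h1
    refine ⟨(e.symm ⟨k, hk⟩).1, h1.2, ?_⟩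
    simp only [h1.2, not_false_eq_true, dif_pos]
    simp
  · intro D hD
    simp only [hD, not_false_eq_true, dif_pos]
    refine ⟨fun k hk => ?_, ?_⟩
    · have hk' : k < r := hk.trans (e ⟨D, mem D hD⟩).2
      simp only [hk', dif_pos]
      rw [hs _ D hD, if_neg]
      intro h
      have : e.symm ⟨k, hk'⟩ = ⟨D, mem D hD⟩ := Subtype.ext h.symm
      rw [← this] at hk
      simp at hk
    · have hk' : (e ⟨D, mem D hD⟩ : ℕ) < r := (e ⟨D, mem D hD⟩).2
      simp only [hk', dif_pos]
      rw [hs _ D hD]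
      simp
  · intro D D' hD hD' _ hi
    simp only [hD, hD', not_false_eq_true, dif_pos] at hi
    have := e.injective (Fin.ext hi)
    exact congrArg Subtype.val this
  · unfold prodD
    rw [prod_congr rfl (g := fun _ => (2 : ℝ)), prod_const, card_range]
    intro k hk
    rw [mem_range] at hk
    have : (univ.filter fun D => D ∉ Z ∧
        (if h : D ∉ Z then (e ⟨D, mem D h⟩ : ℕ) else 0) = k) = {(e.symm ⟨k, hk⟩).1} := by
      ext D
      simp only [mem_filter, mem_univ, true_and, mem_singleton]
      constructor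
      · rintro ⟨hD, hk2⟩
        simp only [hD, not_false_eq_true, dif_pos] at hk2
        have : e ⟨D, mem D hD⟩ = ⟨k, hk⟩ := Fin.ext hk2
        rw [← this]
        simp
      · rintro rfl
        have h1 := (e.symm ⟨k, hk⟩).2
        rw [mem_sdiff] at h1
        refine ⟨h1.2, ?_⟩
        simp only [h1.2, not_false_eq_true, dif_pos]
        simp
    rw [this]
    norm_num

theorem recur (hdual : DualfS) (hvtx : VtxS) (hdrop : DropS) (w : K → V → F) (pr : K → P)
    (S : Finset V) (h1 : ∀ v ∈ S, (inc w v).card = 3) (h2 : ∀ v, v ∉ S → inc w v = ∅)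
    (h3 : ∀ D, ∃ v, w D v ≠ 0)
    (h4 : ∀ D D' v, pr D = pr D' → w D v ≠ 0 → w D' v ≠ 0 → D = D')
    (h5 : ∀ A ⊆ S, A.Nonempty → A ≠ S →
      ∃ u ∈ A, ∃ v ∈ S, v ∉ A ∧ ∃ D, w D u ≠ 0 ∧ w D v ≠ 0) :
    ∀ (r : ℕ) (Z : Finset K), (univ \ Z).card = r → (∃ v ∈ S, inc w v ⊆ Z) →
      ∃ (m : ℕ) (s : ℕ → V → F) (i : K → ℕ), Data w pr Z m s i ∧
        prodD Z m i = 2 ^ r * (3 / 4) ^ Module.finrank F (Rel w Z) := by
  intro r
  induction r using Nat.strong_induction_on with
  | _ r ih =>
    intro Z hr hv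
    by_cases h0 : Rel w Z = ⊥
    · obtain ⟨m, s, i, hd, hp⟩ := base hdual pr h0
      refine ⟨m, s, i, hd, ?_⟩
      rw [hp, h0, finrank_bot, pow_zero, mul_one, hr]
    · obtain ⟨u, hu, D0, D1, D2, h01, h02, h12, hinc, hk0, hx1, hx2⟩ :=
        hvtx F K V w S Z h1 h2 h3 h5 hv h0
      have hD1 : D1 ∉ Z := by
        obtain ⟨x, hx, hne⟩ := hx1
        exact fun h => hne (hx.1 D1 h)
      have hD2 : D2 ∉ Z := by
        obtain ⟨x, hx, hne⟩ := hx2
        exact fun h => hne (hx.1 D2 h)
      have hdr := hdrop F K V w Z u D0 D1 D2 h01 h02 h12 hinc hk0 hx1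
      set Z' := insert D1 (insert D2 Z) with hZ'
      classical
      obtain ⟨s0, hs0⟩ := hdual F K V w Z
        (fun D => if ∀ x ∈ Rel w Z, x D = 0 then 0 else w D u) (by
          intro x hx
          refine Eq.trans ?_ (hx.2 u)
          refine sum_congr rfl fun D _ => ?_
          by_cases h : ∀ x ∈ Rel w Z, x D = 0
          · rw [if_pos h, h x hx]; ring
          · rw [if_neg h])
      have hsub : Z ⊆ Z' := fun D hD => mem_insert_of_mem (mem_insert_of_mem hD)
      have hdiff : Z' \ Z = {D1, D2} := by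
        ext D
        simp only [hZ', mem_sdiff, mem_insert, mem_singleton]
        constructor
        · rintro ⟨h | h | h, h'⟩
          · exact Or.inl h
          · exact Or.inr h
          · exact absurd h h'
        · rintro (rfl | rfl)
          · exact ⟨Or.inl rfl, hD1⟩
          · exact ⟨Or.inr (Or.inl rfl), hD2⟩
      have hcard : (Z' \ Z).card = 2 := by rw [hdiff, card_pair h12]
      have hr' : (univ \ Z').card + 2 = r := by
        have e1 : univ \ Z = (univ \ Z') ∪ (Z' \ Z) := by
          ext D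
          simp only [mem_sdiff, mem_univ, true_and, mem_union]
          constructor
          · intro h
            by_cases h' : D ∈ Z'
            · exact Or.inr ⟨h', h⟩
            · exact Or.inl h'
          · rintro (h | h)
            · exact fun h' => h (hsub h')
            · exact h.2
        rw [← hr, e1, card_union_of_disjoint, hcard]
        rw [disjoint_left]
        intro D hD hD'
        rw [mem_sdiff] at hD hD'
        exact hD.2 hD'.1
      have hwu : ∀ D, D = D1 ∨ D = D2 → w D u ≠ 0 := by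
        intro D hD
        rw [← mem_inc, hinc]
        exact Or.inr hD
      obtain ⟨v, hvS, hvZ⟩ := hv
      obtain ⟨m, s, i, hd, hp⟩ := ih (univ \ Z').card (by omega) Z' rfl
        ⟨v, hvS, hvZ.trans hsub⟩
      have hmem : ∀ D, D ∈ Z' → D ∉ Z → D = D1 ∨ D = D2 := by
        intro D h h'
        have : D ∈ Z' \ Z := mem_sdiff.mpr ⟨h, h'⟩
        rw [hdiff, mem_insert, mem_singleton] at this
        exact this
      obtain ⟨s', i', hd', hp'⟩ := step (w := w) (pr := pr) s0 hsub
        (card_pos.mp (by rw [hcard]; norm_num))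
        (by
          intro D hD hDZ
          have hD12 := hmem D hD hDZ
          rw [hs0 D hDZ, if_neg]
          · exact hwu D hD12
          · intro h
            rcases hD12 with rfl | rfl
            · obtain ⟨x, hx, hne⟩ := hx1
              exact hne (h x hx)
            · obtain ⟨x, hx, hne⟩ := hx2
              exact hne (h x hx))
        (by
          intro D hD
          have hDZ : D ∉ Z := fun h => hD (hsub h)
          rw [hs0 D hDZ]
          split_ifs with h
          · rfl
          · by_contra hne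
            have : D ∈ inc w u := mem_inc.mpr hne
            rw [hinc] at this
            rcases this with rfl | rfl | rfl
            · exact h hk0
            · exact hD (by simp [hZ'])
            · exact hD (by simp [hZ']))
        (by
          intro D D' hD hDZ hD' hDZ' hpr
          exact h4 D D' u hpr (hwu D (hmem D hD hDZ)) (hwu D' (hmem D' hD' hDZ')))
        hd
      refine ⟨m + 1, s', i', hd', ?_⟩
      rw [hp', hp, hcard, ← hdr, ← hr']
      push_cast
      ring

theorem frame (hdual : DualfS) (hvtx : VtxS) (hdrop : DropS) (hext : ExtS) : FrameS := by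
  intro F _ K V P _ _ _ _ w pr S h1 h2 h3 h4 h5 v0 hv0
  obtain ⟨m, s, i, hd, hp⟩ := recur hdual hvtx hdrop w pr S h1 h2 h3 h4 h5
    (univ \ inc w v0).card (inc w v0) rfl ⟨v0, hv0, Subset.refl _⟩
  have hsum : ∀ D, ∑ v, (if v = v0 then (1 : F) else 0) * w D v = w D v0 := by
    intro D
    rw [sum_eq_single v0]
    · simp
    · intro v _ hv
      simp [hv]
    · intro h
      exact absurd (mem_univ v0) h
  obtain ⟨s', i', hd', hp'⟩ := step (w := w) (pr := pr) (Z := ∅) (Z' := inc w v0)
    (fun v => if v = v0 then 1 else 0) (empty_subset _)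
    (by rw [sdiff_empty, ← card_pos, h1 v0 hv0]; norm_num)
    (by intro D hD _; rw [hsum]; exact mem_inc.mp hD)
    (by
      intro D hD
      rw [hsum]
      by_contra h
      exact hD (mem_inc.mpr h))
    (by
      intro D D' hD _ hD' _ hpr
      exact h4 D D' v0 hpr (mem_inc.mp hD) (mem_inc.mp hD'))
    hd
  have hex := hext F K V w (m + 1) s' i'
    (fun D => hd'.lt D (notMem_empty D))
    (fun k hk => by
      obtain ⟨D, _, hD⟩ := hd'.hit k hk
      exact ⟨D, hD⟩)
    (fun D => hd'.tri D (notMem_empty D))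
  obtain ⟨hm, B, Q, hQB, hBQ, hQ⟩ := hex
  have hlt : ∀ D, i' D < m + 1 := fun D => hd'.lt D (notMem_empty D)
  refine ⟨B, Q, fun D => ⟨i' D, (hlt D).trans_le hm⟩, hQB, hBQ, ?_, ?_, ?_⟩
  · intro D
    refine ⟨fun k hk => ?_, ?_⟩
    · have hk' : (k : ℕ) < i' D := hk
      rw [hQ k (hk'.trans (hlt D))]
      exact (hd'.tri D (notMem_empty D)).1 k hk'
    · rw [hQ ⟨i' D, (hlt D).trans_le hm⟩ (hlt D)]
      exact (hd'.tri D (notMem_empty D)).2
  · intro D D' hpr hi
    exact hd'.inj D D' (notMem_empty D) (notMem_empty D') hpr (congrArg Fin.val hi)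
  · have hcount : ∀ k : Fin (Fintype.card V),
        (univ.filter fun D => (⟨i' D, (hlt D).trans_le hm⟩ : Fin (Fintype.card V)) = k) =
          univ.filter fun D => D ∉ (∅ : Finset K) ∧ i' D = (k : ℕ) := by
      intro k
      ext D
      simp only [mem_filter, mem_univ, true_and, Fin.ext_iff, notMem_empty, not_false_eq_true]
    simp only [hcount]
    rw [Fin.prod_univ_eq_prod_range (fun k : ℕ =>
      (1 + ((univ.filter fun D => D ∉ (∅ : Finset K) ∧ i' D = k).card : ℝ))) (Fintype.card V)]
    rw [← prod_subset (range_subset_range.mpr hm)]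
    · change prodD ∅ (m + 1) i' = _
      rw [hp', hp, sdiff_empty, h1 v0 hv0]
      have hc : (univ \ inc w v0).card + 3 = Fintype.card K := by
        have := card_sdiff_add_card_eq_card (subset_univ (inc w v0))
        rw [h1 v0 hv0, card_univ] at this
        exact this
      rw [← hc]
      push_cast
      ring
    · intro k _ hk
      rw [mem_range] at hk
      have : (univ.filter fun D => D ∉ (∅ : Finset K) ∧ i' D = k) = ∅ := by
        ext D
        simp only [mem_filter, mem_univ, true_and, notMem_empty, not_false_eq_true, iff_false]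
        intro h
        exact hk (h ▸ hlt D)
      rw [this]
      simp

end Pool.Agent.Xu.H84
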